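import Pool.Agent.TH723.Ind.Main

/-!
Graphs `H` on `h` vertices whose inducibility equals `h!/(h^h-h)` have no nontrivial module.
Further graphs with larger inducibility, and the case `h ≤ 5`.
-/

set_option autoImplicit false

namespace Pool.Agent.Results.MP_61f483_co.PrimeMembers

open Pool.Agent.TH723.Ind

theorem result :
    (∀ (V : Type) [Fintype V] (H : SimpleGraph V), ∃ ℓ : ℝ, Inducibility H ℓ) ∧
    ∀ (V : Type) [Fintype V] (H : SimpleGraph V) (ℓ : ℝ), 2 ≤ Fintype.card V →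
      Inducibility H ℓ →
      -- (1) `h!/(h^h-h) ≤ i_H`, and strictness is witnessed by a finite graph
      (c (Fintype.card V) ≤ ℓ ∧
        (c (Fintype.card V) < ℓ ↔ ∃ (N : ℕ) (F : SimpleGraph (Fin N)),
          N ^ Fintype.card V <
            cnt H F * (Fintype.card V ^ Fintype.card V - Fintype.card V))) ∧
      -- (2) nontrivial modules
      (∀ M : Finset V, IsModule H M → 2 ≤ M.card → M.card < Fintype.card V →
        (∀ ℓ' : ℝ, Inducibility (H.induce (M : Set V)) ℓ' →
          ((Fintype.card V).factorial : ℝ) * (M.card : ℝ) ^ M.card /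
            ((Fintype.card V : ℝ) ^ Fintype.card V * (M.card.factorial : ℝ)) * ℓ' ≤ ℓ) ∧
        ((Fintype.card V).factorial : ℝ) / (Fintype.card V : ℝ) ^ Fintype.card V *
          ((M.card : ℝ) ^ M.card / ((M.card : ℝ) ^ M.card - M.card)) ≤ ℓ ∧
        c (Fintype.card V) < ℓ) ∧
      -- (3) three induced copies in a graph with one more vertex
      (3 ≤ Fintype.card V → (∃ F : SimpleGraph (Fin (Fintype.card V + 1)), 3 ≤ cnt H F) →
        c (Fintype.card V) < ℓ) ∧
      -- (4) vertex-deleted subgraphs of vertex-transitive graphs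
      (3 ≤ Fintype.card V → ∀ (W : Type) [Fintype W] (F : SimpleGraph W) (w₀ : W),
        Fintype.card W = Fintype.card V + 1 → (∀ v w : W, ∃ e : F ≃g F, e v = w) →
        Nonempty (H ≃g F.induce {x | x ≠ w₀}) → c (Fintype.card V) < ℓ) ∧
      -- (5) paths and their complements
      (∀ k ≥ 3, Nonempty (H ≃g SimpleGraph.pathGraph k) ∨
        Nonempty (Hᶜ ≃g SimpleGraph.pathGraph k) → c (Fintype.card V) < ℓ) ∧
      -- (6) graphs with 3, 4 or 5 vertices
      (3 ≤ Fintype.card V → Fintype.card V ≤ 5 → ¬ Nonempty (H ≃g SimpleGraph.cycleGraph 5) →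
        c (Fintype.card V) < ℓ) := by
  refine ⟨fun V _ H => exists_lim H, fun V _ H ℓ h2 hℓ => ⟨⟨pg H h2 hℓ, criterion H h2 hℓ⟩,
    fun M hM hm hmh => ⟨fun ℓ' hℓ' => module_ineq H M hM (Finset.card_pos.1 (by omega)) hℓ hℓ',
      module_strict H M hM hm hmh hℓ⟩,
    fun h3 ⟨F, hF⟩ => strict_of_three H F h3 (by simp) hF hℓ,
    fun h3 W _ F w₀ hW ht ⟨e⟩ => strict_of_three H F h3 hW
      ((by omega : 3 ≤ Fintype.card W).trans (transitive_cnt H F ht w₀ e)) hℓ,
    fun k hk h => ?_, fun h3 h5 hC => strict_small H h3 h5 hC hℓ⟩⟩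
  rcases h with ⟨⟨e⟩⟩ | ⟨⟨e⟩⟩
  · exact path_strict H hk e hℓ
  · refine path_strict Hᶜ hk e (ind_compl ?_)
    rwa [compl_compl]

end Pool.Agent.Results.MP_61f483_co.PrimeMembers
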